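import Pool.Agent.R569.OSR.Transfer

/-!
# The positive fragment of the theory of one-step rewriting is undecidable for a fixed system

The definitions (positive sentences, truth, Gödel numbers, rewrite rules, one-step rewriting) are in
`Pool.Agent.R569.OSR.Statement`; the signature and the rules are in `Pool.Agent.R569.OSR.Transfer`.

Idea of the proof. Lists of natural numbers are coded by ground terms. Rules that cut a list, cut a
number, or put a mark at the end, together with cycles of marks of lengths 2, 3, 5, 7, make the
following definable by positive formulas: the numerals, the codes of lists, the relation `the list y is
a proper prefix of the list x`, the relation `the lists x and y differ at some place`, and, through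
rules whose left sides are instances of finitely many patterns, `in the list x one of the patterns
occurs right after the prefix y`. Ill-formed terms are recognised by closed walks. The runs of a fixed
register machine are the lists in which a pattern occurs at every place.
-/

set_option autoImplicit false

namespace Pool.Agent.Results.MP_342291_lc.PositiveFragment

open Pool.Agent.R569.OSR

/-- **The positive fragment of the theory of one-step rewriting is undecidable.** There are a finite
signature `L` with a constant and a finite list `R` of rewrite rules over `L` such that no computable
function decides, given (the Gödel number of) a positive sentence over equality and one binary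
relation symbol, whether the sentence holds in the structure of the ground terms of `L` with one-step
rewriting by `R`. -/
theorem result : ∃ (L : FirstOrder.Language.{0, 0}) (R : List (L.Term ℕ × L.Term ℕ)),
    Finite (Σ n, L.Functions n) ∧ Nonempty (L.Functions 0) ∧ (∀ n, IsEmpty (L.Relations n)) ∧
    (∀ l r, (l, r) ∈ R → IsRule l r) ∧ ¬ PosDecidable (OneStep R) := by
  obtain ⟨P, f, hP, hf, h⟩ := exists_pats
  refine ⟨LL, RL P, inferInstanceAs (Finite (Σ n, Fs n)), ⟨Fs.z⟩,
    fun n => inferInstanceAs (IsEmpty Empty), fun l r => isRule_of, fun hd => ?_⟩
  exact not_posDec hf h (posDecidable_equiv eqvL (fun x y => OneStep_iff hP) hd)

end Pool.Agent.Results.MP_342291_lc.PositiveFragment
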